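import Pool.Agent.W2helper26.PB.Stm
import Pool.Agent.H620R2.Gauge.S

/-! # The number of the planted strings -/

set_option autoImplicit false

namespace Pool.Agent.W2helper26.PB

open Pool.Agent.NPC Pool.Agent.H620R2.Gauge Filter MeasureTheory

theorem length_str_le {n N : ℕ} (h : n < N) : (str n).length ≤ Nat.log 2 N := by
  rw [length_str]
  exact Nat.log_mono_right (by omega)

theorem p_cnt' : P_cnt := by
  classical
  intro h0 ε hε
  obtain ⟨c₀, hc₀⟩ : ∃ c₀ : ℕ, 4 / ε ≤ (2 : ℝ) ^ c₀ := by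
    obtain ⟨c, hc⟩ := pow_unbounded_of_one_lt (4 / ε) (by norm_num : (1 : ℝ) < 2)
    exact ⟨c, hc.le⟩
  refine ⟨c₀, ?_⟩
  filter_upwards [eventually_ge_atTop 16] with N hN
  have ht : 4 ≤ Nat.log 2 N := by
    apply (Nat.le_log_iff_pow_le (by norm_num) (by omega)).2
    norm_num
    exact hN
  obtain ⟨hfin, hcard⟩ := h0 c₀ (Nat.log 2 N) ht
  set Y := {y : List Bool | (∃ i m, y = gam c₀ i m) ∧ y.length ≤ Nat.log 2 N} with hY
  have h1 : (((Finset.range N).filter (fun n => ∃ i m, str n = gam c₀ i m)).image str : Set (List Bool))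
      ⊆ Y := by
    intro y hy
    simp only [Finset.coe_image, Set.mem_image, Finset.mem_coe, Finset.mem_filter,
      Finset.mem_range] at hy
    obtain ⟨n, ⟨hn, hg⟩, rfl⟩ := hy
    exact ⟨hg, length_str_le hn⟩
  have h2 := Set.ncard_le_ncard h1 hfin
  rw [Set.ncard_coe_finset, Finset.card_image_of_injective _ str_injective] at h2
  have h3 : (((Finset.range N).filter (fun n => ∃ i m, str n = gam c₀ i m)).card : ℝ) ≤
      4 / 2 ^ c₀ * Real.logb 2 (Real.logb 2 (Nat.log 2 N : ℕ)) :=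
    le_trans (by exact_mod_cast h2) hcard
  refine h3.trans ?_
  have hN0 : (0 : ℝ) < N := by exact_mod_cast (by omega : 0 < N)
  have h4 : ((Nat.log 2 N : ℕ) : ℝ) ≤ Real.logb 2 N := by
    rw [Real.le_logb_iff_rpow_le (by norm_num) hN0, Real.rpow_natCast]
    exact_mod_cast Nat.pow_log_le_self 2 (by omega)
  have h5 : (4 : ℝ) ≤ (Nat.log 2 N : ℕ) := by exact_mod_cast ht
  have h6 : (1 : ℝ) < Real.logb 2 (Nat.log 2 N : ℕ) := by
    rw [Real.lt_logb_iff_rpow_lt (by norm_num) (by linarith)]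
    norm_num
    linarith
  have h7 : Real.logb 2 (Nat.log 2 N : ℕ) ≤ Real.logb 2 (Real.logb 2 N) :=
    Real.logb_le_logb_of_le (by norm_num) (by linarith) h4
  have h8 : Real.logb 2 (Real.logb 2 (Nat.log 2 N : ℕ)) ≤
      Real.logb 2 (Real.logb 2 (Real.logb 2 N)) :=
    Real.logb_le_logb_of_le (by norm_num) (by linarith) h7
  have h9 : 0 ≤ Real.logb 2 (Real.logb 2 (Nat.log 2 N : ℕ)) :=
    Real.logb_nonneg (by norm_num) h6.le
  have h10 : 4 / 2 ^ c₀ ≤ ε := by
    rw [div_le_iff₀ (by positivity)]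
    rw [div_le_iff₀ hε] at hc₀
    linarith
  calc 4 / 2 ^ c₀ * Real.logb 2 (Real.logb 2 (Nat.log 2 N : ℕ))
      ≤ ε * Real.logb 2 (Real.logb 2 (Nat.log 2 N : ℕ)) := mul_le_mul_of_nonneg_right h10 h9
    _ ≤ ε * Real.logb 2 (Real.logb 2 (Real.logb 2 N)) := mul_le_mul_of_nonneg_left h8 hε.le

end Pool.Agent.W2helper26.PB
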