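import Pool.Agent.W2helper26.PB.Fix
import Pool.Agent.H620R2.GaugeR.Seq

/-!
# The complete problems
-/

set_option autoImplicit false

namespace Pool.Agent.W2helper26.PB

open Pool.Agent.NPC Pool.Agent.H620R2.Gauge Filter MeasureTheory
open Pool.Agent.H583R2 (Code U)
open Pool.Agent.W2helper58.BR (IsUP)

/-- there is a complete language for `UP` relative to `A` -/
def UPComplete (A : Oracle) : Prop :=
  ∃ K : Set (List Bool), IsUP A K ∧ ∀ L, IsUP A L → ∃ F : List Bool → List Bool, PolyTime F ∧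
    ∀ x, x ∈ L ↔ F x ∈ K

/-- there is a complete disjoint pair of languages in `coNP` relative to `A` -/
def PairComplete (A : Oracle) : Prop :=
  ∃ K₀ K₁ : Set (List Bool), Pool.Agent.W2helper58.BR.IsNP A K₀ᶜ ∧
    Pool.Agent.W2helper58.BR.IsNP A K₁ᶜ ∧ Disjoint K₀ K₁ ∧
    ∀ L₀ L₁ : Set (List Bool), Pool.Agent.W2helper58.BR.IsNP A L₀ᶜ →
      Pool.Agent.W2helper58.BR.IsNP A L₁ᶜ → Disjoint L₀ L₁ →
      ∃ F : List Bool → List Bool, PolyTime F ∧ ∀ x, (x ∈ L₀ ↔ F x ∈ K₀) ∧ (x ∈ L₁ ↔ F x ∈ K₁)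

theorem pair_inj {a b c d : List Bool} (h : pairBits a b = pairBits c d) : a = c ∧ b = d := by
  have h2 := congrArg unpair h
  rw [unpair_pairBits, unpair_pairBits, Prod.mk.injEq] at h2
  exact h2

variable {cod : List Bool → Bool × Code × Code} {c₀ : ℕ} {A : Oracle}

/-- what `P_ver` says about `V` -/
def VerSpec (cod : List Bool → Bool × Code × Code) (c₀ : ℕ)
    (V : Oracle → Bool → List Bool → List Bool) : Prop :=
  (∀ A j w y, (∀ i m x, y = pairBits (gam c₀ i m) x → ¬ x.length ≤ lev c₀ i m) →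
    V A j (pairBits w y) = []) ∧
  ∀ (A : Oracle) (j : Bool) (w : List Bool) (i : Ix) (m : ℕ) (x : List Bool), x.length ≤ lev c₀ i m →
    (A (gam c₀ i m) = false → V A j (pairBits w (pairBits (gam c₀ i m) x)) = [false]) ∧
    (A (gam c₀ i m) = true →
      (w.length ≤ lev c₀ i (m + 1) ∧ Acc A (if j = true then (cod i.1).2.1 else (cod i.1).2.2)
        (lev c₀ i (m + 1)) (pairBits w x) →
        V A j (pairBits w (pairBits (gam c₀ i m) x)) = [true, (cod i.1).1, true]) ∧
      (¬ (w.length ≤ lev c₀ i (m + 1) ∧ Acc A (if j = true then (cod i.1).2.1 else (cod i.1).2.2)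
        (lev c₀ i (m + 1)) (pairBits w x)) →
        V A j (pairBits w (pairBits (gam c₀ i m) x)) = [true, (cod i.1).1, false]))

theorem ver_true {V : Oracle → Bool → List Bool → List Bool} (hV : VerSpec cod c₀ V) (A : Oracle)
    (j k : Bool) (w y : List Bool) : V A j (pairBits w y) = [true, k, true] ↔
    ∃ (i : Ix) (m : ℕ) (x : List Bool), y = pairBits (gam c₀ i m) x ∧ x.length ≤ lev c₀ i m ∧
      A (gam c₀ i m) = true ∧ (cod i.1).1 = k ∧ w.length ≤ lev c₀ i (m + 1) ∧
      Acc A (if j = true then (cod i.1).2.1 else (cod i.1).2.2) (lev c₀ i (m + 1)) (pairBits w x) := by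
  constructor
  · intro h
    by_cases h1 : ∀ i m x, y = pairBits (gam c₀ i m) x → ¬ x.length ≤ lev c₀ i m
    · rw [hV.1 A j w y h1] at h
      simp at h
    · push Not at h1
      obtain ⟨i, m, x, rfl, hx⟩ := h1
      obtain ⟨h2, h3⟩ := hV.2 A j w i m x hx
      cases h4 : A (gam c₀ i m) with
      | false =>
        rw [h2 h4] at h
        simp at h
      | true =>
        by_cases h5 : w.length ≤ lev c₀ i (m + 1) ∧
            Acc A (if j = true then (cod i.1).2.1 else (cod i.1).2.2) (lev c₀ i (m + 1)) (pairBits w x)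
        · rw [(h3 h4).1 h5] at h
          simp only [List.cons.injEq, and_true, true_and] at h
          exact ⟨i, m, x, rfl, hx, h4, h, h5.1, h5.2⟩
        · rw [(h3 h4).2 h5] at h
          simp at h
  · rintro ⟨i, m, x, rfl, hx, h4, h5, h6, h7⟩
    rw [((hV.2 A j w i m x hx).2 h4).1 ⟨h6, h7⟩, h5]

/-- the complete language for `UP` -/
def KU (cod : List Bool → Bool × Code × Code) (c₀ : ℕ) (A : Oracle) : Set (List Bool) :=
  {y | ∃ (i : Ix) (m : ℕ) (x : List Bool), y = pairBits (gam c₀ i m) x ∧ x.length ≤ lev c₀ i m ∧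
    A (gam c₀ i m) = true ∧ (cod i.1).1 = true ∧ ∃ w : List Bool, w.length ≤ lev c₀ i (m + 1) ∧
      Acc A (cod i.1).2.1 (lev c₀ i (m + 1)) (pairBits w x)}

theorem le_len (c₀ : ℕ) (i : Ix) (m : ℕ) (x : List Bool) :
    lev c₀ i (m + 1) ≤ (pairBits (gam c₀ i m) x).length := by
  rw [length_pairBits]
  have := length_gam c₀ i m
  omega

theorem up_complete (hver : P_ver) (hsim : P_sim) (hcode : P_code) (hlevb : P_levb) (hred : P_red)
    (hcs : Function.Surjective cod) (hcp : Pool.Agent.H583R2.PF cod)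
    (hA : ∀ i m, A (gam c₀ i m) = true ↔ Good cod A c₀ i m) : UPComplete A := by
  obtain ⟨V, hV1, hV2, hV3⟩ := hver cod hcp c₀
  have hV : VerSpec cod c₀ V := ⟨hV2, hV3⟩
  refine ⟨KU cod c₀ A, ?_, ?_⟩
  · -- in `UP`
    have hh : Poly (fun s : List Bool => if s = [true, true, true] then [true] else ([] : List Bool)) :=
      Poly.ite (Poly.decide_eq Poly.id (NPC.Poly.const _)) (NPC.Poly.const _) (NPC.Poly.const _)
    refine ⟨fun z => if V A true z = [true, true, true] then [true] else [], Polynomial.X,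
      (IsFP.of_poly hh).comp (hV1 A true), fun y => ?_, ?_⟩
    · constructor
      · rintro ⟨i, m, x, rfl, hx, h4, h5, w, h6, h7⟩
        refine ⟨w, ?_, ?_⟩
        · rw [Polynomial.eval_X]
          exact h6.trans (le_len c₀ i m x)
        · have := (ver_true hV A true true w (pairBits (gam c₀ i m) x)).2
            ⟨i, m, x, rfl, hx, h4, h5, h6, by simpa using h7⟩
          simp [this]
      · rintro ⟨w, _, hw⟩
        have h1 : V A true (pairBits w y) = [true, true, true] := by
          by_contra hne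
          simp [hne] at hw
        obtain ⟨i, m, x, hy, hx, h4, h5, h6, h7⟩ := (ver_true hV A true true w y).1 h1
        exact ⟨i, m, x, hy, hx, h4, h5, w, h6, by simpa using h7⟩
    · intro y w w' _ hw _ hw'
      have h1 : V A true (pairBits w y) = [true, true, true] := by
        by_contra hne
        simp [hne] at hw
      have h1' : V A true (pairBits w' y) = [true, true, true] := by
        by_contra hne
        simp [hne] at hw'
      obtain ⟨i, m, x, hy, hx, h4, h5, h6, h7⟩ := (ver_true hV A true true w y).1 h1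
      obtain ⟨i', m', x', hy', hx', h4', h5', h6', h7'⟩ := (ver_true hV A true true w' y).1 h1'
      rw [hy] at hy'
      obtain ⟨e1, e2⟩ := pair_inj hy'
      obtain ⟨e3, e4⟩ := gam_inj c₀ e1
      subst e3 e4 e2
      have hg := (hA i m).1 h4
      unfold Good at hg
      rw [if_pos h5] at hg
      exact hg x w w' hx h6 h6' (by simpa using h7) (by simpa using h7')
  · rintro L ⟨V₀, p, ⟨M, hM⟩, hL, hu⟩
    obtain ⟨i, hk, hi⟩ := hsim hcode hlevb cod hcs true M M p p c₀
    obtain ⟨F, hF, hFx⟩ := hred c₀ i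
    refine ⟨F, hF, fun x => ?_⟩
    obtain ⟨m, hm, hx⟩ := hFx x
    have hacc : ∀ x w : List Bool, x.length ≤ lev c₀ i m → w.length ≤ lev c₀ i (m + 1) →
        (Acc A (cod i.1).2.1 (lev c₀ i (m + 1)) (pairBits w x) ↔
          w.length ≤ p.eval x.length ∧ V₀ (pairBits w x) = [true]) := by
      intro x w hx hw
      rw [((hi A m x w hx).2.2 hw).1, hM]
      simp
    have hgood : Good cod A c₀ i m := by
      unfold Good
      rw [if_pos hk]
      intro x w w' hx hw hw' h1 h2
      have h1' := (hacc x w hx hw).1 h1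
      have h2' := (hacc x w' hx hw').1 h2
      exact hu x w w' h1'.1 h1'.2 h2'.1 h2'.2
    rw [hL x, hm]
    constructor
    · rintro ⟨w, hw, hVw⟩
      have hw' : w.length ≤ lev c₀ i (m + 1) := hw.trans (hi A m x w hx).1
      exact ⟨i, m, x, rfl, hx, (hA i m).2 hgood, hk, w, hw', (hacc x w hx hw').2 ⟨hw, hVw⟩⟩
    · rintro ⟨i', m', x', hy', hx', h4', h5', w, h6, h7⟩
      obtain ⟨e1, e2⟩ := pair_inj hy'
      obtain ⟨e3, e4⟩ := gam_inj c₀ e1
      subst e3 e4 e2
      exact ⟨w, (hacc x w hx h6).1 h7⟩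

/-- the complete pair -/
def KP (cod : List Bool → Bool × Code × Code) (c₀ : ℕ) (A : Oracle) (j : Bool) : Set (List Bool) :=
  {y | ∃ (i : Ix) (m : ℕ) (x : List Bool), y = pairBits (gam c₀ i m) x ∧ x.length ≤ lev c₀ i m ∧
    A (gam c₀ i m) = true ∧ (cod i.1).1 = false ∧ ¬ ∃ w : List Bool, w.length ≤ lev c₀ i (m + 1) ∧
      Acc A (if j = true then (cod i.1).2.1 else (cod i.1).2.2) (lev c₀ i (m + 1)) (pairBits w x)}

theorem ver_false {V : Oracle → Bool → List Bool → List Bool} (hV : VerSpec cod c₀ V) (A : Oracle)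
    (j : Bool) (y : List Bool) : y ∈ (KP cod c₀ A j)ᶜ ↔
    ∃ w : List Bool, w.length ≤ y.length ∧ V A j (pairBits w y) ≠ [true, false, false] := by
  constructor
  · intro h
    by_cases h1 : ∀ i m x, y = pairBits (gam c₀ i m) x → ¬ x.length ≤ lev c₀ i m
    · refine ⟨[], by simp, ?_⟩
      rw [hV.1 A j [] y h1]
      simp
    · push Not at h1
      obtain ⟨i, m, x, rfl, hx⟩ := h1
      cases h4 : A (gam c₀ i m) with
      | false =>
        refine ⟨[], by simp, ?_⟩
        rw [(hV.2 A j [] i m x hx).1 h4]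
        simp
      | true =>
        by_cases h5 : ∃ w : List Bool, w.length ≤ lev c₀ i (m + 1) ∧
            Acc A (if j = true then (cod i.1).2.1 else (cod i.1).2.2) (lev c₀ i (m + 1)) (pairBits w x)
        · obtain ⟨w, hw⟩ := h5
          refine ⟨w, hw.1.trans (le_len c₀ i m x), ?_⟩
          rw [((hV.2 A j w i m x hx).2 h4).1 hw]
          simp
        · have h6 : (cod i.1).1 = true := by
            by_contra h6
            exact h ⟨i, m, x, rfl, hx, h4, by simpa using h6, h5⟩
          refine ⟨[], by simp, ?_⟩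
          have h7 := ((hV.2 A j [] i m x hx).2 h4).2 (fun h8 => h5 ⟨[], h8⟩)
          rw [h7, h6]
          simp
  · rintro ⟨w, _, hw⟩ ⟨i, m, x, rfl, hx, h4, h5, h6⟩
    apply hw
    rw [((hV.2 A j w i m x hx).2 h4).2 (fun h8 => h6 ⟨w, h8⟩), h5]

theorem pair_complete (hver : P_ver) (hsim : P_sim) (hcode : P_code) (hlevb : P_levb)
    (hred : P_red) (hcs : Function.Surjective cod) (hcp : Pool.Agent.H583R2.PF cod)
    (hA : ∀ i m, A (gam c₀ i m) = true ↔ Good cod A c₀ i m) : PairComplete A := by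
  obtain ⟨V, hV1, hV2, hV3⟩ := hver cod hcp c₀
  have hV : VerSpec cod c₀ V := ⟨hV2, hV3⟩
  have hnp : ∀ j, Pool.Agent.W2helper58.BR.IsNP A (KP cod c₀ A j)ᶜ := by
    intro j
    have hh : Poly (fun s : List Bool => if s = [true, false, false] then ([] : List Bool) else [true]) :=
      Poly.ite (Poly.decide_eq Poly.id (NPC.Poly.const _)) (NPC.Poly.const _) (NPC.Poly.const _)
    refine ⟨fun z => if V A j z = [true, false, false] then [] else [true], Polynomial.X,
      (IsFP.of_poly hh).comp (hV1 A j), fun y => ?_⟩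
    rw [ver_false hV A j y]
    refine exists_congr fun w => ?_
    rw [Polynomial.eval_X]
    refine and_congr_right fun _ => ?_
    by_cases h : V A j (pairBits w y) = [true, false, false] <;> simp [h]
  refine ⟨KP cod c₀ A true, KP cod c₀ A false, hnp true, hnp false, ?_, ?_⟩
  · rw [Set.disjoint_left]
    rintro y ⟨i, m, x, hy, hx, h4, h5, h6⟩ ⟨i', m', x', hy', hx', h4', h5', h6'⟩
    rw [hy] at hy'
    obtain ⟨e1, e2⟩ := pair_inj hy'
    obtain ⟨e3, e4⟩ := gam_inj c₀ e1
    subst e3 e4 e2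
    have hg := (hA i m).1 h4
    unfold Good at hg
    rw [if_neg (by simp [h5])] at hg
    obtain ⟨w, hw, h7 | h7⟩ := hg x hx
    · exact h6 ⟨w, hw, by simpa using h7⟩
    · exact h6' ⟨w, hw, by simpa using h7⟩
  · rintro L₀ L₁ ⟨V₀, p₀, ⟨M₀, hM₀⟩, hL₀⟩ ⟨V₁, p₁, ⟨M₁, hM₁⟩, hL₁⟩ hd
    obtain ⟨i, hk, hi⟩ := hsim hcode hlevb cod hcs false M₀ M₁ p₀ p₁ c₀
    obtain ⟨F, hF, hFx⟩ := hred c₀ i
    refine ⟨F, hF, fun x => ?_⟩
    obtain ⟨m, hm, hx⟩ := hFx x
    have hex₀ : ∀ x : List Bool, x.length ≤ lev c₀ i m → ((∃ w : List Bool,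
        w.length ≤ lev c₀ i (m + 1) ∧ Acc A (cod i.1).2.1 (lev c₀ i (m + 1)) (pairBits w x)) ↔
          x ∈ L₀ᶜ) := by
      intro x hx
      rw [hL₀ x]
      constructor
      · rintro ⟨w, hw, h⟩
        have := (((hi A m x w hx).2.2 hw).1).1 h
        rw [hM₀] at this
        exact ⟨w, by simpa using this⟩
      · rintro ⟨w, hw, h⟩
        have hw' : w.length ≤ lev c₀ i (m + 1) := hw.trans (hi A m x w hx).1
        refine ⟨w, hw', (((hi A m x w hx).2.2 hw').1).2 ⟨hw, ?_⟩⟩
        rw [hM₀, h]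
    have hex₁ : ∀ x : List Bool, x.length ≤ lev c₀ i m → ((∃ w : List Bool,
        w.length ≤ lev c₀ i (m + 1) ∧ Acc A (cod i.1).2.2 (lev c₀ i (m + 1)) (pairBits w x)) ↔
          x ∈ L₁ᶜ) := by
      intro x hx
      rw [hL₁ x]
      constructor
      · rintro ⟨w, hw, h⟩
        have := (((hi A m x w hx).2.2 hw).2).1 h
        rw [hM₁] at this
        exact ⟨w, by simpa using this⟩
      · rintro ⟨w, hw, h⟩
        have hw' : w.length ≤ lev c₀ i (m + 1) := hw.trans (hi A m x w hx).2.1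
        refine ⟨w, hw', (((hi A m x w hx).2.2 hw').2).2 ⟨hw, ?_⟩⟩
        rw [hM₁, h]
    have hgood : Good cod A c₀ i m := by
      unfold Good
      rw [if_neg (by simp [hk])]
      intro x hx
      have h1 : x ∈ L₀ᶜ ∨ x ∈ L₁ᶜ := by
        by_contra h
        push Not at h
        simp only [Set.mem_compl_iff, not_not] at h
        exact Set.disjoint_left.1 hd h.1 h.2
      rcases h1 with h1 | h1
      · obtain ⟨w, hw, h⟩ := (hex₀ x hx).2 h1
        exact ⟨w, hw, Or.inl h⟩
      · obtain ⟨w, hw, h⟩ := (hex₁ x hx).2 h1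
        exact ⟨w, hw, Or.inr h⟩
    have hAg := (hA i m).2 hgood
    rw [hm]
    constructor
    · constructor
      · intro hxL
        refine ⟨i, m, x, rfl, hx, hAg, hk, fun h => ?_⟩
        have := (hex₀ x hx).1 (by simpa using h)
        exact this hxL
      · rintro ⟨i', m', x', hy', hx', h4', h5', h6⟩
        obtain ⟨e1, e2⟩ := pair_inj hy'
        obtain ⟨e3, e4⟩ := gam_inj c₀ e1
        subst e3 e4 e2
        by_contra hxL
        exact h6 (by simpa using (hex₀ x hx).2 hxL)
    · constructor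
      · intro hxL
        refine ⟨i, m, x, rfl, hx, hAg, hk, fun h => ?_⟩
        have := (hex₁ x hx).1 (by simpa using h)
        exact this hxL
      · rintro ⟨i', m', x', hy', hx', h4', h5', h6⟩
        obtain ⟨e1, e2⟩ := pair_inj hy'
        obtain ⟨e3, e4⟩ := gam_inj c₀ e1
        subst e3 e4 e2
        by_contra hxL
        exact h6 (by simpa using (hex₁ x hx).2 hxL)

end Pool.Agent.W2helper26.PB
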