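import Pool.Agent.W2helper26.PB.Cpl
import Pool.Agent.H620R2.GaugeR.R8

/-!
# The assembly
-/

set_option autoImplicit false

namespace Pool.Agent.W2helper26.PB

open Pool.Agent.NPC Pool.Agent.H620R2.Gauge Filter MeasureTheory
open Pool.Agent.H583R2 (Code U)
open Pool.Agent.W2helper58.BR (IsUP)

theorem hs_ne_gam (w : List Bool) (r : ℕ) (c₀ : ℕ) (i : Ix) (m : ℕ) : hs w r ≠ gam c₀ i m := by
  intro h
  have hl : lev c₀ i (m + 1) ≠ 0 := by
    unfold lev
    positivity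
  obtain ⟨k, hk⟩ := Nat.exists_eq_succ_of_ne_zero hl
  unfold hs gam at h
  rw [hk, Nat.succ_eq_add_one, List.replicate_succ, List.cons_append] at h
  simp at h

theorem hit_iff {c₀ : ℕ} {A B : Oracle} (h : ∀ y, (∀ i m, y ≠ gam c₀ i m) → A y = B y)
    (w : List Bool) : Hit A w ↔ Hit B w := by
  unfold Hit
  refine forall_congr' fun r => forall_congr' fun _ => ?_
  rw [h _ fun i m => hs_ne_gam w r c₀ i m]

theorem qs_inj {n n' i i' : ℕ} (h : qs n i = qs n' i') : n = n' ∧ i = i' := by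
  obtain ⟨h1, h2⟩ := pair_inj h
  have h4 := congrArg List.length h1
  have h5 := congrArg List.length h2
  rw [List.length_replicate, List.length_replicate] at h4 h5
  exact ⟨h4, h5⟩

/-- the language of the hits is not in `P` -/
theorem not_isP {A : Oracle} {n₀ : ℕ} (h1 : ∀ w w' : List Bool, n₀ ≤ w.length →
    w'.length = w.length → Hit A w → Hit A w' → w = w')
    (h2 : ∃ᶠ n : ℕ in atTop, ∃ w : List Bool, w.length = n ∧ Hit A w)
    (h3 : ∀ M : Alg, ∀ᶠ n : ℕ in atTop, ¬ ∃ w : List Bool, w.length = n ∧ Hit A w ∧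
      ∀ i < n, M.out A (qs n i) = some [true] ↔ w.getD i false = true) : ¬ IsP A (LU A n₀) := by
  rintro ⟨V, ⟨M, hM⟩, hV⟩
  obtain ⟨n, ⟨w, hw, hh⟩, h4, h5⟩ := (h2.and_eventually
    ((h3 M).and (eventually_ge_atTop n₀))).exists
  refine h4 ⟨w, hw, hh, fun i hi => ?_⟩
  rw [hM]
  simp only [Option.some.injEq]
  rw [← hV]
  constructor
  · rintro ⟨n', i', w', hn', hi', hq, hw', hh', hb⟩
    obtain ⟨rfl, rfl⟩ := qs_inj hq
    rwa [h1 w w' (by omega) (by omega) hh hh']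
  · intro hb
    exact ⟨n, i, w, h5, hi, rfl, hw, hh, hb⟩

/-- the set of the theorems -/
def World : Set Oracle :=
  {A | UPComplete A ∧ PairComplete A ∧ ∃ L, IsUP A L ∧ ¬ IsP A L}

theorem not_null_pb (hdec : P_dec) (hcode : P_code) (hlevb : P_levb) (hsim : P_sim)
    (hcnt0 : P_cnt0) (hcnt : P_cnt) (hver : P_ver) (hred : P_red) (hhit1 : P_hit1) (hhit2 : P_hit2)
    (hcore : P_core) (hfound : P_found) (hlup : P_lup)
    (f : ℕ → ℝ) (ε : ℝ) (hε : 0 < ε)
    (hf : ∀ᶠ N : ℕ in atTop, ε * Real.logb 2 (Real.logb 2 (Real.logb 2 N)) ≤ f N) :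
    ¬ Null f World := by
  classical
  obtain ⟨cod, hcs, hcp⟩ := hdec
  obtain ⟨c₀, hc₀⟩ := hcnt hcnt0 ε hε
  obtain ⟨Φ, hΦ1, hΦ2⟩ := p_fix cod c₀
  obtain ⟨N₀, hN₀⟩ := Filter.eventually_atTop.1 (hf.and hc₀)
  set c : ℝ := ∑ i ∈ Finset.range N₀, |(i : ℝ) - f i| with hcd
  have hc0 : 0 ≤ c := Finset.sum_nonneg fun _ _ => abs_nonneg _
  set G : Set Oracle := {B | (∃ n₀ : ℕ, ∀ w w' : List Bool, n₀ ≤ w.length →
      w'.length = w.length → Hit B w → Hit B w' → w = w') ∧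
    (∃ᶠ n : ℕ in atTop, ∃ w : List Bool, w.length = n ∧ Hit B w) ∧
    ∀ M : Alg, ∀ᶠ n : ℕ in atTop, ¬ ∃ w : List Bool, w.length = n ∧ Hit B w ∧
      ∀ i < n, M.out (Φ B) (qs n i) = some [true] ↔ w.getD i false = true} with hG
  have hcount : Countable Alg := by
    have h1 := CC.poly_countable
    infer_instance
  have hGae : ∀ᵐ B ∂ranO, B ∈ G := by
    have h3 : ∀ᵐ B ∂ranO, ∀ M : Alg, ∀ᶠ n : ℕ in atTop, ¬ ∃ w : List Bool, w.length = n ∧
        Hit B w ∧ ∀ i < n, M.out (Φ B) (qs n i) = some [true] ↔ w.getD i false = true :=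
      ae_all_iff.2 fun M => hfound hcore hcnt0 c₀ Φ hΦ1 M
    filter_upwards [hhit1, hhit2, h3] with B h1 h2 h3
    exact ⟨h1, h2, h3⟩
  have hGc : ranO Gᶜ = 0 := hGae
  have hGpos : 0 < ranO G := by
    rw [pos_iff_ne_zero]
    intro h0
    have h1 : ranO (G ∪ Gᶜ) ≤ ranO G + ranO Gᶜ := measure_union_le _ _
    rw [Set.union_compl_self, measure_univ, h0, hGc, add_zero] at h1
    exact absurd h1 (by norm_num)
  refine not_null_of f G hGpos Φ {y | ∃ i m, y = gam c₀ i m} ?_ c ?_ _ ?_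
  · intro B y hy
    apply hΦ1
    intro i m he
    exact hy ⟨i, m, he⟩
  · intro N
    rcases Nat.lt_or_ge N N₀ with hN | hN
    · have h4 : (((Finset.range N).filter
          (fun i => str i ∈ {y | ∃ i m, y = gam c₀ i m})).card : ℝ) ≤ N := by
        have := Finset.card_filter_le (Finset.range N)
          (fun i => str i ∈ {y | ∃ i m, y = gam c₀ i m})
        rw [Finset.card_range] at this
        exact_mod_cast this
      have h5 : |(N : ℝ) - f N| ≤ c :=
        Finset.single_le_sum (f := fun i : ℕ => |(i : ℝ) - f i|) (fun _ _ => abs_nonneg _)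
          (Finset.mem_range.2 hN)
      have h6 := le_abs_self ((N : ℝ) - f N)
      linarith
    · obtain ⟨h1, h2⟩ := hN₀ N hN
      have h3 : (((Finset.range N).filter
          (fun i => str i ∈ {y | ∃ i m, y = gam c₀ i m})).card : ℝ) ≤
          ε * Real.logb 2 (Real.logb 2 (Real.logb 2 N)) := by
        refine le_trans (le_of_eq ?_) h2
        congr 2
      linarith
  · rintro B ⟨⟨n₀, h1⟩, h2, h3⟩
    have hAB : ∀ y, (∀ i m, y ≠ gam c₀ i m) → Φ B y = B y := fun y => hΦ1 B y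
    have h1' : ∀ w w' : List Bool, n₀ ≤ w.length → w'.length = w.length → Hit (Φ B) w →
        Hit (Φ B) w' → w = w' := by
      intro w w' h4 h5 h6 h7
      exact h1 w w' h4 h5 ((hit_iff hAB w).1 h6) ((hit_iff hAB w').1 h7)
    refine ⟨up_complete hver hsim hcode hlevb hred hcs hcp (hΦ2 B),
      pair_complete hver hsim hcode hlevb hred hcs hcp (hΦ2 B), LU (Φ B) n₀,
      hlup (Φ B) n₀ h1', not_isP h1' ?_ ?_⟩
    · refine h2.mono ?_
      rintro n ⟨w, hw, hh⟩
      exact ⟨w, hw, (hit_iff hAB w).2 hh⟩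
    · intro M
      refine (h3 M).mono ?_
      rintro n h4 ⟨w, hw, hh, h5⟩
      exact h4 ⟨w, hw, (hit_iff hAB w).1 hh, h5⟩

end Pool.Agent.W2helper26.PB
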