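import Pool.Agent.W2helper26.PB.Stm

/-!
# The guide
-/

set_option autoImplicit false

namespace Pool.Agent.W2helper26.PB

open Pool.Agent.NPC Pool.Agent.H620R2.Gauge Filter MeasureTheory
open Pool.Agent.H583R2 (Code U)

theorem acc_local {A A' : Oracle} (cd : Code) (T : ℕ)
    (h : ∀ z : List Bool, z.length ≤ T → A z = A' z) (v : List Bool) (n : ℕ) :
    ∀ a, acc A cd T v n a = acc A' cd T v n a := by
  induction n with
  | zero => intro a; rfl
  | succ n ih =>
    intro a
    unfold acc
    split
    · rfl
    · split
      · rename_i hq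
        rw [h _ hq, ih]
      · rfl
    · rfl

theorem Acc_local {A A' : Oracle} (cd : Code) (T : ℕ)
    (h : ∀ z : List Bool, z.length ≤ T → A z = A' z) (v : List Bool) : Acc A cd T v ↔ Acc A' cd T v := by
  unfold Acc
  rw [acc_local cd T h]

theorem length_gam (c₀ : ℕ) (i : Ix) (m : ℕ) : lev c₀ i (m + 1) < (gam c₀ i m).length := by
  unfold gam
  simp only [List.length_append, List.length_replicate, List.length_cons]
  omega

theorem Good_local (cod : List Bool → Bool × Code × Code) {A A' : Oracle} (c₀ : ℕ) (i : Ix) (m : ℕ)
    (h : ∀ z : List Bool, z.length < (gam c₀ i m).length → A z = A' z) :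
    Good cod A c₀ i m ↔ Good cod A' c₀ i m := by
  have h' : ∀ z : List Bool, z.length ≤ lev c₀ i (m + 1) → A z = A' z := fun z hz =>
    h z (hz.trans_lt (length_gam c₀ i m))
  unfold Good
  simp only [Acc_local _ _ h']

theorem gam_inj (c₀ : ℕ) {i i' : Ix} {m m' : ℕ} (h : gam c₀ i m = gam c₀ i' m') :
    i = i' ∧ m = m' := by
  unfold gam at h
  have key : ∀ (a b : ℕ) (l l' : List Bool), List.replicate a true ++ false :: l =
      List.replicate b true ++ false :: l' → l = l' := by
    intro a
    induction a with
    | zero =>
      intro b l l' h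
      cases b with
      | zero => simpa using h
      | succ b => simp [List.replicate_succ] at h
    | succ a ih =>
      intro b l l' h
      cases b with
      | zero => simp [List.replicate_succ] at h
      | succ b =>
        simp only [List.replicate_succ, List.cons_append, List.cons.injEq, true_and] at h
        exact ih b l l' h
  have h1 := key _ _ _ _ h
  have h2 := congrArg unpair h1
  rw [unpair_pairBits, unpair_pairBits, Prod.mk.injEq] at h2
  have h3 := congrArg unpair h2.2
  rw [unpair_pairBits, unpair_pairBits, Prod.mk.injEq] at h3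
  have h4 := congrArg List.length h3.1
  have h5 := congrArg List.length h3.2
  rw [List.length_replicate, List.length_replicate] at h4 h5
  exact ⟨Prod.ext h2.1 h4, h5⟩

open Classical in
/-- the oracle with the guide -/
noncomputable def Phi (cod : List Bool → Bool × Code × Code) (c₀ : ℕ) (B : Oracle)
    (y : List Bool) : Bool :=
  if h : ∃ p : Ix × ℕ, y = gam c₀ p.1 p.2 then
    decide (Good cod (fun z => if _hz : z.length < y.length then Phi cod c₀ B z else false) c₀
      h.choose.1 h.choose.2)
  else B y
termination_by y.length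

theorem p_fix : P_fix := by
  classical
  intro cod c₀
  refine ⟨Phi cod c₀, fun B y h => ?_, fun B i m => ?_⟩
  · rw [Phi, dif_neg]
    rintro ⟨p, hp⟩
    exact h _ _ hp
  · have h : ∃ p : Ix × ℕ, gam c₀ i m = gam c₀ p.1 p.2 := ⟨(i, m), rfl⟩
    rw [Phi, dif_pos h, decide_eq_true_iff]
    obtain ⟨h1, h2⟩ := gam_inj c₀ h.choose_spec
    rw [← h1, ← h2]
    apply Good_local
    intro z hz
    rw [dif_pos hz]

end Pool.Agent.W2helper26.PB
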