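import Pool.Agent.W2helper26.PB.Fin
import Pool.Agent.W2helper26.PB.Cnt
import Pool.Agent.W2helper26.PB.Ext
import Pool.Agent.W2helper12.PB.Ver
import Pool.Agent.W2helper15.PB.Lup
import Pool.Agent.W2helper18.PB.Core
import Pool.Agent.W2helper28.PB.Dec
import Pool.Agent.W2helper47.PB.Found
import Pool.Agent.W2helper51.PB.Red
import Pool.Agent.W2helper66.PB.Hit1
import Pool.Agent.W2helper67.PB.Sim
import Pool.Agent.W2helper69.PB.Cnt0
import Pool.Agent.W2helper69.PB.Levb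
import Pool.Agent.W2helper93.PB.Hit2
import Pool.Agent.W2helper97.PB.Code

/-!
# The theorem from the pieces
-/

set_option autoImplicit false

namespace Pool.Agent.W2helper26.PB

open Filter Pool.Agent.NPC Pool.Agent.H620R2.Gauge

theorem main (f : ℕ → ℝ) (ε : ℝ) (hε : 0 < ε)
    (hf : ∀ᶠ N : ℕ in atTop, ε * Real.logb 2 (Real.logb 2 (Real.logb 2 N)) ≤ f N) :
    ¬ Null f (World ∩ {A | Sep A}) := by
  refine ext (ε := ε) ?_ hf
  refine not_null_pb ?_ ?_ ?_ ?_ ?_ p_cnt' ?_ ?_ ?_ ?_ ?_ ?_ ?_ (lll ε) ε hε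
    (Eventually.of_forall fun N => le_rfl)
  · exact Pool.Agent.W2helper28.PB.p_dec
  · exact Pool.Agent.W2helper97.PB.p_code
  · exact Pool.Agent.W2helper69.PB.p_levb
  · exact Pool.Agent.W2helper67.PB.p_sim
  · exact Pool.Agent.W2helper69.PB.p_cnt0
  · exact Pool.Agent.W2helper12.PB.p_ver
  · exact Pool.Agent.W2helper51.PB.p_red
  · exact Pool.Agent.W2helper66.PB.p_hit1
  · exact Pool.Agent.W2helper93.PB.p_hit2
  · exact Pool.Agent.W2helper18.PB.p_core
  · exact Pool.Agent.W2helper47.PB.p_found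
  · exact Pool.Agent.W2helper15.PB.p_lup

end Pool.Agent.W2helper26.PB
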