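import Pool.Agent.H583R2.Sim
import Pool.Agent.H620R2.Gauge.M
import Pool.Agent.H620R2.Gauge.C
import Pool.Agent.H620R2.GaugeR.Seq
import Pool.Agent.W2helper58.BR.Cls

/-!
# Project PB: a few planted bits give complete problems for promise classes. The pieces

Every definition `P_...` below is one piece; prove `theorem p_... : P_...` in a file of your own,
`Pool/Agent/W2<seat>/PB/<name>.lean`.

World: a random oracle `B`, changed only at the strings `gam c₀ i m` (about `ε log log log N` of the first
`N` strings). The changed oracle `A` tells at `gam c₀ i m` whether the promise of the machine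
number `i` holds for all inputs of length at most `lev c₀ i m`.
-/

set_option autoImplicit false

namespace Pool.Agent.W2helper26.PB

open Pool.Agent.NPC Pool.Agent.H620R2.Gauge Filter MeasureTheory
open Pool.Agent.H583R2 (Code U)

/-! ### The universal algorithm -/

/-- The universal algorithm with the code `cd`, the clock `T` and the input `v`, after the answers `a`, with
`n` further rounds: is the output `[true]`? -/
def acc (A : Oracle) (cd : Code) (T : ℕ) (v : List Bool) : ℕ → List Bool → Bool
  | 0, _ => false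
  | n + 1, a =>
    match U cd (pairBits v a) T with
    | some (true :: z) => decide (z = [true])
    | some (false :: q) => if q.length ≤ T then acc A cd T v n (a ++ [A q]) else false
    | _ => false

/-- the universal algorithm accepts -/
def Acc (A : Oracle) (cd : Code) (T : ℕ) (v : List Bool) : Prop := acc A cd T v T [] = true

/-- Piece DEC. A surjective decoding of the bit strings, computable in the framework `PF` (numbers in
unary, `H583R2/Lib.lean`); the kind and two codes. For instance: split the string at each `false` into runs of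
`true` (numbers), the list of numbers at each `0` into groups; the first two groups are the header and the
list of bits, the others the instructions. -/
def P_dec : Prop := ∃ cod : List Bool → Bool × Code × Code, Function.Surjective cod ∧
  Pool.Agent.H583R2.PF cod

/-- indices of machines: code and clock -/
abbrev Ix : Type := List Bool × ℕ

/-- the levels of the machine number `i`; each level is a fixed power of the one before -/
def lev (c₀ : ℕ) (i : Ix) (m : ℕ) : ℕ := 2 ^ 2 ^ (m * 2 ^ (c₀ + 2 * i.1.length + i.2))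

/-- the place of the guide bit of the machine number `i` at level `m` -/
def gam (c₀ : ℕ) (i : Ix) (m : ℕ) : List Bool :=
  List.replicate (lev c₀ i (m + 1)) true ++
    false :: pairBits i.1 (pairBits (List.replicate i.2 true) (List.replicate m true))

/-- the promise for the machine number `i` up to level `m`: for the kind `true` at most one witness (for the
first code), for the kind `false` every input has a witness for one of the codes -/
def Good (cod : List Bool → Bool × Code × Code) (A : Oracle) (c₀ : ℕ) (i : Ix) (m : ℕ) : Prop :=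
  if (cod i.1).1 = true then
    ∀ x w w' : List Bool, x.length ≤ lev c₀ i m → w.length ≤ lev c₀ i (m + 1) →
      w'.length ≤ lev c₀ i (m + 1) →
      Acc A (cod i.1).2.1 (lev c₀ i (m + 1)) (pairBits w x) →
      Acc A (cod i.1).2.1 (lev c₀ i (m + 1)) (pairBits w' x) → w = w'
  else
    ∀ x : List Bool, x.length ≤ lev c₀ i m → ∃ w : List Bool, w.length ≤ lev c₀ i (m + 1) ∧
      (Acc A (cod i.1).2.1 (lev c₀ i (m + 1)) (pairBits w x) ∨
        Acc A (cod i.1).2.2 (lev c₀ i (m + 1)) (pairBits w x))

/-- Piece CODE. `U_codeOf` in `H583R2/Sim.lean` (`PolyTime` is Mathlib's `TM2ComputableInPolyTime`). Once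
the simulation has halted, nothing changes (`stepU_halted`-like), so the output for smaller `t` is
`none` or the same. -/
def P_code : Prop := ∀ D : List Bool → List Bool, PolyTime D → ∃ (cd : Code) (P : Polynomial ℕ),
  ∀ (x : List Bool) (t : ℕ), (U cd x t = none ∨ U cd x t = some (D x)) ∧
    (P.eval x.length ≤ t → U cd x t = some (D x))

/-- Piece LEVB. `lev c₀ i (m + 1) = (lev c₀ i m) ^ (2 ^ 2 ^ (c₀ + 2 |c| + d))` and `lev ≥ 2`. -/
def P_levb : Prop := ∀ P : Polynomial ℕ, ∃ d₀ : ℕ, ∀ (c₀ : ℕ) (c : List Bool) (d m : ℕ), d₀ ≤ d →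
  P.eval (lev c₀ (c, d) m) ≤ lev c₀ (c, d) (m + 1)

/-- Piece SIM (use `P_code`, `P_levb`). Change the next-action function `M.D` as follows: on
`pairBits (pairBits w x) a` it stops with the empty output if `p |x| < |w|` or
`M.p |pairBits w x| ≤ |a|` (decode with `unpair`, `poly_unpair`). Take codes `cd₁`, `cd₂` for both
algorithms, `cod c = (kind, cd₁, cd₂)` and a large `d`. If `|w| ≤ p |x|`, all inputs `pairBits v a` which
occur have length bounded by a polynomial in `|x| ≤ lev c₀ i m`, so the clock is large enough;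
if `|w| > p |x|`, then `U` gives `none` or `some []`. -/
def P_sim : Prop := P_code → P_levb → ∀ cod : List Bool → Bool × Code × Code, Function.Surjective cod →
  ∀ (kind : Bool) (M₁ M₂ : Alg) (p₁ p₂ : Polynomial ℕ) (c₀ : ℕ), ∃ i : Ix,
  (cod i.1).1 = kind ∧ ∀ (A : Oracle) (m : ℕ) (x w : List Bool), x.length ≤ lev c₀ i m →
    p₁.eval x.length ≤ lev c₀ i (m + 1) ∧ p₂.eval x.length ≤ lev c₀ i (m + 1) ∧
    (w.length ≤ lev c₀ i (m + 1) →
      (Acc A (cod i.1).2.1 (lev c₀ i (m + 1)) (pairBits w x) ↔
        w.length ≤ p₁.eval x.length ∧ M₁.out A (pairBits w x) = some [true]) ∧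
      (Acc A (cod i.1).2.2 (lev c₀ i (m + 1)) (pairBits w x) ↔
        w.length ≤ p₂.eval x.length ∧ M₂.out A (pairBits w x) = some [true]))

/-- Piece FIX. `Good cod A c₀ i m` depends only on the values of `A` at strings of length at most
`lev c₀ i (m + 1)`, which is less than the length of `gam c₀ i m`; `gam c₀` is injective. Recursion on the
length, compare `Phi` in `W2helper26/DT/COD.lean` or in `W2helper26/MC/Cod.lean`. -/
def P_fix : Prop := ∀ (cod : List Bool → Bool × Code × Code) (c₀ : ℕ), ∃ Φ : Oracle → Oracle,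
  (∀ B y, (∀ i m, y ≠ gam c₀ i m) → Φ B y = B y) ∧
  ∀ B i m, Φ B (gam c₀ i m) = true ↔ Good cod (Φ B) c₀ i m

/-- Piece CNT0. If `|gam c₀ (c, d) m| ≤ t` then `(m + 1) * 2 ^ (c₀ + 2 |c| + d) ≤ log log t`; sum over `c`
and `d`: there are `2 ^ k` strings `c` of length `k`, and `∑_k 2 ^ k / 4 ^ k = 2`, `∑_d 1 / 2 ^ d = 2`. -/
def P_cnt0 : Prop := ∀ (c₀ t : ℕ), 4 ≤ t →
  {y : List Bool | (∃ i m, y = gam c₀ i m) ∧ y.length ≤ t}.Finite ∧
  ({y : List Bool | (∃ i m, y = gam c₀ i m) ∧ y.length ≤ t}.ncard : ℝ) ≤
    4 / 2 ^ c₀ * Real.logb 2 (Real.logb 2 t)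

open Classical in
/-- Piece CNT (use `P_cnt0`). `|str n| ≤ log₂ (n + 1)` (see `length_str` or the like in
`H620R2/Gauge`), so take `t = ⌊log₂ (N + 1)⌋` and `c₀` with `8 / 2 ^ c₀ ≤ ε`. -/
def P_cnt : Prop := P_cnt0 → ∀ ε : ℝ, 0 < ε → ∃ c₀ : ℕ, ∀ᶠ N : ℕ in atTop,
  (((Finset.range N).filter (fun n => ∃ i m, str n = gam c₀ i m)).card : ℝ) ≤
    ε * Real.logb 2 (Real.logb 2 (Real.logb 2 N))

/-- Piece VER: one algorithm, relative to all oracles, which checks that `y` is `pairBits (gam c₀ i m) x` with
`|x| ≤ lev c₀ i m`, asks for `gam c₀ i m` and, if the answer is yes, runs the universal algorithm with the clock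
`lev c₀ i (m + 1)` (the number of `true`s at the beginning of `gam c₀ i m`) on `pairBits w x`. The next-action function is
polynomial-time computable: `PF.U` in `H583R2/Univ.lean` for `U`, and `tm_of_pf`, `pf_of_poly` (see
`W2helper61/SM/Enc.lean`) between the frameworks `PF` (numbers in unary) and `Poly`; `lev` is computed by iterated
doubling and squaring, cut at `|y|`; `PF.iterate`, `PF.min`, `PF.find` in `H583R2/Lib.lean`. Stop when there are more than `lev c₀ i (m + 1)` answers. -/
def P_ver : Prop := ∀ cod : List Bool → Bool × Code × Code, Pool.Agent.H583R2.PF cod → ∀ c₀ : ℕ, ∃ V : Oracle → Bool → List Bool → List Bool,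
  (∀ A j, IsFP A (V A j)) ∧
  (∀ A j w y, (∀ i m x, y = pairBits (gam c₀ i m) x → ¬ x.length ≤ lev c₀ i m) →
    V A j (pairBits w y) = []) ∧
  ∀ (A : Oracle) (j : Bool) (w : List Bool) (i : Ix) (m : ℕ) (x : List Bool), x.length ≤ lev c₀ i m →
    (A (gam c₀ i m) = false → V A j (pairBits w (pairBits (gam c₀ i m) x)) = [false]) ∧
    (A (gam c₀ i m) = true →
      (w.length ≤ lev c₀ i (m + 1) ∧ Acc A (if j = true then (cod i.1).2.1 else (cod i.1).2.2)
        (lev c₀ i (m + 1)) (pairBits w x) →
        V A j (pairBits w (pairBits (gam c₀ i m) x)) = [true, (cod i.1).1, true]) ∧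
      (¬ (w.length ≤ lev c₀ i (m + 1) ∧ Acc A (if j = true then (cod i.1).2.1 else (cod i.1).2.2)
        (lev c₀ i (m + 1)) (pairBits w x)) →
        V A j (pairBits w (pairBits (gam c₀ i m) x)) = [true, (cod i.1).1, false]))

/-- Piece RED. `i` is fixed; take the least `m` with `|x| ≤ lev c₀ i m`; search over `m ≤ |x|`, with all numbers cut
at a polynomial in `|x|`; `lev c₀ i (m + 1)` is then at most `(|x| ^ D + 2) ^ D`, `D = 2 ^ 2 ^ (c₀ + 2 |c| + d)`. -/
def P_red : Prop := ∀ (c₀ : ℕ) (i : Ix), ∃ F : List Bool → List Bool, PolyTime F ∧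
  ∀ x, ∃ m, F x = pairBits (gam c₀ i m) x ∧ x.length ≤ lev c₀ i m

/-! ### `P` is not `UP` -/

/-- the number of bits for each candidate of length `n` -/
def hb (n : ℕ) : ℕ := n + Nat.log 2 (n + 1)

/-- the strings of the candidate `w` -/
def hs (w : List Bool) (r : ℕ) : List Bool := false :: pairBits w (List.replicate r true)

/-- the candidate `w` is a hit -/
def Hit (B : Oracle) (w : List Bool) : Prop := ∀ r < hb w.length, B (hs w r) = true

/-- the question for the bit number `i` of the hit of length `n` -/
def qs (n i : ℕ) : List Bool := pairBits (List.replicate n true) (List.replicate i true)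

/-- the language -/
def LU (A : Oracle) (n₀ : ℕ) : Set (List Bool) :=
  {y | ∃ (n i : ℕ) (w : List Bool), n₀ ≤ n ∧ i < n ∧ y = qs n i ∧ w.length = n ∧ Hit A w ∧
    w.getD i false = true}

/-- Piece HIT1. The probability of two hits of length `n` is at most `4 ^ n * 4 ^ (- hb n) ≤ 4 / (n + 1) ^ 2`;
Borel-Cantelli. -/
def P_hit1 : Prop := ∀ᵐ B ∂ranO, ∃ n₀ : ℕ, ∀ w w' : List Bool, n₀ ≤ w.length →
  w'.length = w.length → Hit B w → Hit B w' → w = w'

/-- Piece HIT2. The probability `P_n` of a hit of length `n` is at least `1 - (1 - 2 ^ (- hb n)) ^ (2 ^ n)`, which is at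
least `1 / (2 (n + 1))`; different lengths are independent, and `∑ 1 / (n + 1)` diverges. -/
def P_hit2 : Prop := ∀ᵐ B ∂ranO, ∃ᶠ n : ℕ in atTop, ∃ w : List Bool, w.length = n ∧ Hit B w

/-- Piece CORE. For each `w` of length `n`: the probability that `W B = w` and `w` is a hit is
`2 ^ (- hb n)` times the probability that `W (B with the bits of w set to 1) = w`, and this event implies
that `W B = w` or `Q B` contains a string of `w`. The sum of the indicators of these over `w` is at most `1 + D`. -/
def P_core : Prop := ∀ (n D ℓ : ℕ) (W : Oracle → List Bool) (Q : Oracle → Finset (List Bool)),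
  (∀ B, (Q B).card ≤ D) → (∀ B B' : Oracle, (∀ y ∈ Q B, B y = B' y) → W B = W B') →
  (∀ B B' : Oracle, (∀ y : List Bool, y.length ≤ ℓ → B y = B' y) → W B = W B' ∧ Q B = Q B') →
  ranO {B | (W B).length = n ∧ Hit B (W B)} ≤ ENNReal.ofReal ((D + 1) * (1 / 2 : ℝ) ^ hb n)

/-- Piece FOUND (use `P_core`, `P_cnt0`). Let `Q` be a polynomial which bounds the lengths of the questions of `M` on
`qs n i`, `i < n`, and `S` the set of the `gam` strings of length at most `Q n`; `|S| ≤ n / 2` for large `n`. For each
`σ : S → Bool` let `B_σ` be `B` with the values `σ` on `S`; `W_σ B` is the word of length `n` with the bits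
`M.out B_σ (qs n i) = some [true]`. If the event holds for `n`, then `W_σ B` is a hit for `σ = Φ B` restricted to `S`. So
the probability is at most `2 ^ (n / 2) * (n * M.p (..) + 1) * 2 ^ (- n)`. Borel-Cantelli
(`measure_limsup_atTop_eq_zero` needs no measurability). Locality of `M.out`: `Alg.out_local` in `H620R2`. -/
def P_found : Prop := P_core → P_cnt0 → ∀ (c₀ : ℕ) (Φ : Oracle → Oracle),
  (∀ B y, (∀ i m, y ≠ gam c₀ i m) → Φ B y = B y) → ∀ M : Alg, ∀ᵐ B ∂ranO, ∀ᶠ n : ℕ in atTop,
    ¬ ∃ w : List Bool, w.length = n ∧ Hit B w ∧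
      ∀ i < n, M.out (Φ B) (qs n i) = some [true] ↔ w.getD i false = true

/-- Piece LUP: the witness is `w`; `IsFP.tt` (`H620R2/Gauge/A2.lean`), compare `hitLang_np` in
`H620R2/Gauge2/V7.lean`. -/
def P_lup : Prop := ∀ (A : Oracle) (n₀ : ℕ), (∀ w w' : List Bool, n₀ ≤ w.length →
  w'.length = w.length → Hit A w → Hit A w' → w = w') →
    Pool.Agent.W2helper58.BR.IsUP A (LU A n₀)

end Pool.Agent.W2helper26.PB
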